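import Pool.Agent.K6.H72.TB.Vir

set_option autoImplicit false

/-!
# An explicit loop of the class `(1,0,-1)`
-/

open Set Filter Topology Complex MeasureTheory

namespace Pool.Agent.K6.H72.TB

/-- the winding number about `0` of the curve `γ` on `[0, T]` is `k` -/
def Deg (γ : ℝ → ℂ) (T : ℝ) (k : ℤ) : Prop :=
  ∃ φ : ℝ → ℝ, ContinuousOn φ (Set.Icc 0 T) ∧
    (∀ t ∈ Set.Icc 0 T, γ t = ((‖γ t‖ : ℝ) : ℂ) * Complex.exp ((φ t : ℂ) * Complex.I)) ∧
    φ T - φ 0 = 2 * Real.pi * k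

/-- the frequency -/
noncomputable def om : ℝ := Real.pi / 4

theorem om_pos : 0 < om := by unfold om; positivity
theorem om_sq : om ^ 2 ≤ 6169 / 10000 := by
  have h := Real.pi_lt_d4
  have h0 := Real.pi_pos
  unfold om
  have : Real.pi ^ 2 ≤ 3.1416 ^ 2 := pow_le_pow_left₀ h0.le h.le 2
  rw [div_pow]
  norm_num at this ⊢
  linarith

/-- `cos`, `sin` of the phase -/
noncomputable def cc (t : ℝ) : ℝ := Real.cos (om * t)
noncomputable def ss (t : ℝ) : ℝ := Real.sin (om * t)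

theorem cs (t : ℝ) : ss t ^ 2 = 1 - cc t ^ 2 := by
  unfold ss cc; have := Real.sin_sq_add_cos_sq (om * t); linarith

theorem cc_deriv (t : ℝ) : HasDerivAt cc (-(om * ss t)) t := by
  unfold cc ss
  have := (Real.hasDerivAt_cos (om * t)).comp t ((hasDerivAt_id t).const_mul om)
  refine this.congr_deriv ?_
  simp; ring

theorem ss_deriv (t : ℝ) : HasDerivAt ss (om * cc t) t := by
  unfold cc ss
  have := (Real.hasDerivAt_sin (om * t)).comp t ((hasDerivAt_id t).const_mul om)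
  refine this.congr_deriv ?_
  simp; ring

theorem cc_per (t : ℝ) : cc (t + 8) = cc t := by
  unfold cc om
  rw [show Real.pi / 4 * (t + 8) = Real.pi / 4 * t + 2 * Real.pi by ring, Real.cos_add_two_pi]
theorem ss_per (t : ℝ) : ss (t + 8) = ss t := by
  unfold ss om
  rw [show Real.pi / 4 * (t + 8) = Real.pi / 4 * t + 2 * Real.pi by ring, Real.sin_add_two_pi]

/-- the loop, in coordinates -/
noncomputable def yr (i : Fin 3) (t : ℝ) : ℝ :=
  ![4 / 5 * cc t, -(1 / 5) * cc t + 1 / 2 * cc t ^ 2, -(1 / 5) * cc t - 1 / 2 * cc t ^ 2] i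
noncomputable def yi (i : Fin 3) (t : ℝ) : ℝ :=
  ![-(2 / 5) * (cc t * ss t), 1 / 10 * (cc t * ss t) - ss t, 1 / 10 * (cc t * ss t) + ss t] i
/-- its velocity, in coordinates -/
noncomputable def yr' (i : Fin 3) (t : ℝ) : ℝ :=
  ![-(4 / 5) * (om * ss t), 1 / 5 * (om * ss t) - om * (cc t * ss t),
    1 / 5 * (om * ss t) + om * (cc t * ss t)] i
noncomputable def yi' (i : Fin 3) (t : ℝ) : ℝ :=
  ![-(2 / 5) * (om * (cc t ^ 2 - ss t ^ 2)), 1 / 10 * (om * (cc t ^ 2 - ss t ^ 2)) - om * cc t,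
    1 / 10 * (om * (cc t ^ 2 - ss t ^ 2)) + om * cc t] i

noncomputable def y (i : Fin 3) (t : ℝ) : ℂ := (yr i t : ℂ) + (yi i t : ℂ) * Complex.I

theorem yr_deriv (i : Fin 3) (t : ℝ) : HasDerivAt (yr i) (yr' i t) t := by
  have c := cc_deriv t
  have c2 := c.pow 2
  fin_cases i
  · exact (c.const_mul (4 / 5)).congr_deriv (by simp [yr'])
  · exact ((c.const_mul (-(1 / 5))).add (c2.const_mul (1 / 2))).congr_deriv (by simp [yr']; ring)
  · exact ((c.const_mul (-(1 / 5))).sub (c2.const_mul (1 / 2))).congr_deriv (by simp [yr']; ring)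

theorem yi_deriv (i : Fin 3) (t : ℝ) : HasDerivAt (yi i) (yi' i t) t := by
  have c := (cc_deriv t).mul (ss_deriv t)
  have s := ss_deriv t
  fin_cases i
  · exact (c.const_mul (-(2 / 5))).congr_deriv (by simp [yi']; ring)
  · exact ((c.const_mul (1 / 10)).sub s).congr_deriv (by simp [yi']; ring)
  · exact ((c.const_mul (1 / 10)).add s).congr_deriv (by simp [yi']; ring)

theorem y_deriv (i : Fin 3) (t : ℝ) :
    HasDerivAt (y i) ((yr' i t : ℂ) + (yi' i t : ℂ) * Complex.I) t :=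
  (yr_deriv i t).ofReal_comp.add ((yi_deriv i t).ofReal_comp.mul_const Complex.I)

theorem cc_smooth : ContDiff ℝ (⊤ : ℕ∞) cc := Real.contDiff_cos.comp (contDiff_const.mul contDiff_id)
theorem ss_smooth : ContDiff ℝ (⊤ : ℕ∞) ss := Real.contDiff_sin.comp (contDiff_const.mul contDiff_id)

theorem y_smooth (i : Fin 3) : ContDiff ℝ (⊤ : ℕ∞) (y i) := by
  have c := cc_smooth
  have s := ss_smooth
  have h1 : ContDiff ℝ (⊤ : ℕ∞) (yr i) := by
    fin_cases i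
    · exact contDiff_const.mul c
    · exact (contDiff_const.mul c).add (contDiff_const.mul (c.pow 2))
    · exact (contDiff_const.mul c).sub (contDiff_const.mul (c.pow 2))
  have h2 : ContDiff ℝ (⊤ : ℕ∞) (yi i) := by
    fin_cases i
    · exact contDiff_const.mul (c.mul s)
    · exact (contDiff_const.mul (c.mul s)).sub s
    · exact (contDiff_const.mul (c.mul s)).add s
  exact (Complex.ofRealCLM.contDiff.comp h1).add ((Complex.ofRealCLM.contDiff.comp h2).mul contDiff_const)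

theorem y_per (i : Fin 3) (t : ℝ) : y i (t + 8) = y i t := by
  unfold y yr yi
  rw [cc_per, ss_per]

theorem nrm (a b : ℝ) : ‖(a : ℂ) + (b : ℂ) * Complex.I‖ ^ 2 = a ^ 2 + b ^ 2 := by
  rw [← Complex.normSq_eq_norm_sq, Complex.normSq_add_mul_I]

theorem y01 (t : ℝ) : y 0 t - y 1 t = ((1 - 1 / 2 * cc t : ℝ) : ℂ) * Complex.exp ((om * t : ℝ) * Complex.I) := by
  rw [Complex.exp_mul_I, ← Complex.ofReal_cos, ← Complex.ofReal_sin]
  change _ = ((1 - 1 / 2 * cc t : ℝ) : ℂ) * ((cc t : ℂ) + (ss t : ℂ) * Complex.I)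
  unfold y yr yi
  simp
  ring

theorem y20 (t : ℝ) : y 2 t - y 0 t
    = ((1 + 1 / 2 * cc t : ℝ) : ℂ) * Complex.exp ((Real.pi - om * t : ℝ) * Complex.I) := by
  rw [Complex.exp_mul_I, ← Complex.ofReal_cos, ← Complex.ofReal_sin, Real.cos_pi_sub, Real.sin_pi_sub]
  change _ = ((1 + 1 / 2 * cc t : ℝ) : ℂ) * (((-cc t : ℝ) : ℂ) + (ss t : ℂ) * Complex.I)
  unfold y yr yi
  simp
  ring

theorem y12 (t : ℝ) : y 1 t - y 2 t = ((cc t ^ 2 : ℝ) : ℂ) + ((-2 * ss t : ℝ) : ℂ) * Complex.I := by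
  unfold y yr yi
  simp
  ring

theorem cc_abs (t : ℝ) : -1 ≤ cc t ∧ cc t ≤ 1 := ⟨Real.neg_one_le_cos _, Real.cos_le_one _⟩

theorem cc_sq (t : ℝ) : 0 ≤ cc t ^ 2 ∧ cc t ^ 2 ≤ 1 := by
  refine ⟨sq_nonneg _, ?_⟩
  have := cs t
  nlinarith [sq_nonneg (ss t)]

theorem n01 (t : ℝ) : ‖y 0 t - y 1 t‖ = 1 - 1 / 2 * cc t := by
  rw [y01, norm_mul, Complex.norm_exp_ofReal_mul_I, mul_one, Complex.norm_real, Real.norm_eq_abs,
    abs_of_nonneg]
  linarith [(cc_abs t).2]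

theorem n20 (t : ℝ) : ‖y 2 t - y 0 t‖ = 1 + 1 / 2 * cc t := by
  rw [y20, norm_mul, Complex.norm_exp_ofReal_mul_I, mul_one, Complex.norm_real, Real.norm_eq_abs,
    abs_of_nonneg]
  linarith [(cc_abs t).1]

theorem n12 (t : ℝ) : ‖y 1 t - y 2 t‖ = 2 - cc t ^ 2 := by
  have h := nrm (cc t ^ 2) (-2 * ss t)
  rw [← y12] at h
  have h2 : ‖y 1 t - y 2 t‖ ^ 2 = (2 - cc t ^ 2) ^ 2 := by
    rw [h]
    have := cs t
    nlinarith
  have h3 : 0 ≤ 2 - cc t ^ 2 := by linarith [(cc_sq t).2]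
  exact (pow_left_inj₀ (norm_nonneg _) h3 (by norm_num)).1 h2

theorem deg01 : Deg (fun t => y 0 t - y 1 t) 8 1 := by
  refine ⟨fun t => om * t, by fun_prop, fun t _ => ?_, ?_⟩
  · simp only
    rw [n01]; exact y01 t
  · simp [om]; ring

theorem deg20 : Deg (fun t => y 2 t - y 0 t) 8 (-1) := by
  refine ⟨fun t => Real.pi - om * t, by fun_prop, fun t _ => ?_, ?_⟩
  · simp only
    rw [n20]; exact y20 t
  · simp [om]; ring

theorem slit12 (t : ℝ) : y 1 t - y 2 t ∈ Complex.slitPlane := by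
  rw [Complex.mem_slitPlane_iff, y12]
  have e1 : (((cc t ^ 2 : ℝ) : ℂ) + ((-2 * ss t : ℝ) : ℂ) * Complex.I).re = cc t ^ 2 := by
    rw [Complex.add_re, Complex.re_ofReal_mul, Complex.I_re, Complex.ofReal_re]; ring
  have e2 : (((cc t ^ 2 : ℝ) : ℂ) + ((-2 * ss t : ℝ) : ℂ) * Complex.I).im = -2 * ss t := by
    rw [Complex.add_im, Complex.im_ofReal_mul, Complex.I_im, Complex.ofReal_im]; ring
  rw [e1, e2]
  rcases eq_or_ne (cc t) 0 with h | h
  · right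
    intro h2
    have := cs t
    rw [h] at this
    have h3 : ss t = 0 := by linarith
    rw [h3] at this
    norm_num at this
  · left; positivity

theorem deg12 : Deg (fun t => y 1 t - y 2 t) 8 0 := by
  refine ⟨fun t => Complex.arg (y 1 t - y 2 t), ?_, fun t _ => ?_, ?_⟩
  · intro t _
    refine ContinuousAt.continuousWithinAt ?_
    have h1 : ContinuousAt (fun t => y 1 t - y 2 t) t :=
      (y_deriv 1 t).continuousAt.sub (y_deriv 2 t).continuousAt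
    exact ContinuousAt.comp (f := fun t => y 1 t - y 2 t) (Complex.continuousAt_arg (slit12 t)) h1
  · exact (Complex.norm_mul_exp_arg_mul_I _).symm
  · have := y_per 1 0
    have h2 := y_per 2 0
    rw [zero_add] at this h2
    simp only
    rw [this, h2]; simp

/-- the integrand of the action of the loop -/
theorem lag_le (t : ℝ) :
    1 / 2 * (1 / 4 * ‖deriv (y 0) t‖ ^ 2 + 1 / 2 * ‖deriv (y 1) t‖ ^ 2 + 1 / 2 * ‖deriv (y 2) t‖ ^ 2)
      + (1 / 8 / ‖y 0 t - y 1 t‖ + 1 / 4 / ‖y 1 t - y 2 t‖ + 1 / 8 / ‖y 2 t - y 0 t‖)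
    ≤ (6169 / 10000 * (1 / 8) + 3 / 8) + (6169 / 10000 * (4 / 5) + 5 / 24) * cc t ^ 2 := by
  rw [(y_deriv 0 t).deriv, (y_deriv 1 t).deriv, (y_deriv 2 t).deriv, nrm, nrm, nrm, n01, n12, n20]
  obtain ⟨a1, a2⟩ := cc_abs t
  obtain ⟨b1, b2⟩ := cc_sq t
  have hs := cs t
  set c := cc t with hc
  set s := ss t with hsd
  have K : 1 / 2 * (1 / 4 * (yr' 0 t ^ 2 + yi' 0 t ^ 2) + 1 / 2 * (yr' 1 t ^ 2 + yi' 1 t ^ 2)
      + 1 / 2 * (yr' 2 t ^ 2 + yi' 2 t ^ 2)) = om ^ 2 * (1 / 8 + 4 / 5 * c ^ 2 - 2 / 5 * (c ^ 2) ^ 2) := by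
    simp only [yr', yi', Matrix.cons_val_zero, Matrix.cons_val_one, Matrix.cons_val]
    rw [← hc, ← hsd]
    have e : s ^ 2 = 1 - c ^ 2 := hs
    have e4 : s ^ 4 = (1 - c ^ 2) ^ 2 := by rw [← e]; ring
    linear_combination (om ^ 2 / 10 + om ^ 2 / 40 * s ^ 2 + om ^ 2 / 2 * c ^ 2 * 1) * 0 + om ^ 2 *
      (1 / 10 + 1 / 2 * c ^ 2 - 1 / 20 * c ^ 2 + 1 / 40 * (s ^ 2 + 1 - c ^ 2)) * e
  rw [K]
  have U1 : 1 / 8 / (1 - 1 / 2 * c) + 1 / 8 / (1 + 1 / 2 * c) ≤ 1 / 4 * (1 + c ^ 2 / 3) := by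
    have p1 : 0 < 1 - 1 / 2 * c := by linarith
    have p2 : 0 < 1 + 1 / 2 * c := by linarith
    rw [div_add_div _ _ p1.ne' p2.ne', div_le_iff₀ (mul_pos p1 p2)]
    nlinarith [mul_nonneg b1 (sub_nonneg.2 b2)]
  have U2 : 1 / 4 / (2 - c ^ 2) ≤ 1 / 8 * (1 + c ^ 2) := by
    rw [div_le_iff₀ (by linarith)]
    nlinarith [mul_nonneg b1 (sub_nonneg.2 b2)]
  have K2 : om ^ 2 * (1 / 8 + 4 / 5 * c ^ 2 - 2 / 5 * (c ^ 2) ^ 2) ≤ 6169 / 10000 * (1 / 8 + 4 / 5 * c ^ 2) := by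
    have h1 : 1 / 8 + 4 / 5 * c ^ 2 - 2 / 5 * (c ^ 2) ^ 2 ≤ 1 / 8 + 4 / 5 * c ^ 2 := by
      nlinarith [sq_nonneg (c ^ 2)]
    calc om ^ 2 * (1 / 8 + 4 / 5 * c ^ 2 - 2 / 5 * (c ^ 2) ^ 2)
        ≤ om ^ 2 * (1 / 8 + 4 / 5 * c ^ 2) := mul_le_mul_of_nonneg_left h1 (sq_nonneg _)
      _ ≤ _ := mul_le_mul_of_nonneg_right om_sq (by positivity)
  linarith

theorem cc_int : ∫ t in (0:ℝ)..8, cc t ^ 2 = 4 := by
  have h : ∀ t, HasDerivAt (fun t => t / 2 + (cc t * ss t) / (2 * om)) (cc t ^ 2) t := by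
    intro t
    have := ((hasDerivAt_id t).div_const 2).add (((cc_deriv t).mul (ss_deriv t)).div_const (2 * om))
    refine this.congr_deriv ?_
    have := cs t
    have ho := om_pos
    field_simp
    nlinarith
  have hc : Continuous fun t => cc t ^ 2 :=
    (continuous_iff_continuousAt.mpr fun t => (cc_deriv t).continuousAt).pow 2
  rw [intervalIntegral.integral_eq_sub_of_hasDerivAt (fun t _ => h t) (hc.intervalIntegrable _ _)]
  have h8 := cc_per 0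
  have s8 := ss_per 0
  rw [zero_add] at h8 s8
  rw [h8, s8]
  ring

end Pool.Agent.K6.H72.TB
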