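import Pool.Agent.K6.H72.TB.Orb

set_option autoImplicit false

/-!
# The action of a periodic solution is `-3` times energy times period
-/

open Set Filter Topology Complex MeasureTheory

namespace Pool.Agent.K6.H72.TB

open Pool.Agent.Helper342.Hom

/-- the real inner product in coordinates -/
noncomputable def ip (a b : ℂ) : ℝ := a.re * b.re + a.im * b.im

theorem ip_self (a : ℂ) : ip a a = ‖a‖ ^ 2 := by
  rw [← Complex.normSq_eq_norm_sq, Complex.normSq_apply]; rfl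

theorem re_deriv {z : ℝ → ℂ} {z' : ℂ} {t : ℝ} (h : HasDerivAt z z' t) :
    HasDerivAt (fun s => (z s).re) z'.re t :=
  Complex.reCLM.hasFDerivAt.comp_hasDerivAt t h

theorem im_deriv {z : ℝ → ℂ} {z' : ℂ} {t : ℝ} (h : HasDerivAt z z' t) :
    HasDerivAt (fun s => (z s).im) z'.im t :=
  Complex.imCLM.hasFDerivAt.comp_hasDerivAt t h

theorem ip_deriv {z w : ℝ → ℂ} {z' w' : ℂ} {t : ℝ} (h : HasDerivAt z z' t)
    (k : HasDerivAt w w' t) : HasDerivAt (fun s => ip (z s) (w s)) (ip z' (w t) + ip (z t) w') t := by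
  unfold ip
  refine (((re_deriv h).mul (re_deriv k)).add ((im_deriv h).mul (im_deriv k))).congr_deriv ?_
  ring

theorem sq_deriv {z : ℝ → ℂ} {z' : ℂ} {t : ℝ} (h : HasDerivAt z z' t) :
    HasDerivAt (fun s => ‖z s‖ ^ 2) (2 * ip (z t) z') t := by
  have := ip_deriv h h
  have e : (fun s => ip (z s) (z s)) = fun s => ‖z s‖ ^ 2 := by
    funext s; exact ip_self _
  rw [e] at this
  refine this.congr_deriv ?_
  unfold ip; ring

theorem inv_deriv {z : ℝ → ℂ} {z' : ℂ} {t : ℝ} (h : HasDerivAt z z' t) (hz : z t ≠ 0) :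
    HasDerivAt (fun s => ‖z s‖⁻¹) (-(ip (z t) z') / ‖z t‖ ^ 3) t := by
  have hn : 0 < ‖z t‖ := norm_pos_iff.mpr hz
  have h1 := (sq_deriv h).sqrt (by positivity)
  have e : (fun s => Real.sqrt (‖z s‖ ^ 2)) = fun s => ‖z s‖ := by
    funext s; exact Real.sqrt_sq (norm_nonneg _)
  rw [e, Real.sqrt_sq hn.le] at h1
  refine (h1.inv hn.ne').congr_deriv ?_
  field_simp

theorem ip_Fc (a z : ℂ) : ip a (Fc z) = ip a z / ‖z‖ ^ 3 := by
  unfold Fc ip
  rw [← Complex.ofReal_pow, Complex.div_ofReal_re, Complex.div_ofReal_im]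
  ring

theorem ip_Fc_self (z : ℂ) (hz : z ≠ 0) : ip z (Fc z) = ‖z‖⁻¹ := by
  have hn : 0 < ‖z‖ := norm_pos_iff.mpr hz
  rw [ip_Fc, ip_self]
  field_simp

/-- kinetic energy -/
noncomputable def Kin (w : ℂ × ℂ) : ℝ := 1 / 40 * ‖w.1‖ ^ 2 + 1 / 8 * ‖w.2‖ ^ 2
/-- the potential -/
noncomputable def Pot (x : ℂ × ℂ) : ℝ := 1 / 4 * (‖x.1 + x.2‖⁻¹ + ‖x.1 - x.2‖⁻¹ + ‖x.2‖⁻¹)
/-- half of the derivative of the moment of inertia -/
noncomputable def Mom (x w : ℂ × ℂ) : ℝ := 1 / 20 * ip x.1 w.1 + 1 / 4 * ip x.2 w.2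

theorem fst_deriv {X : ℝ → ℂ × ℂ} {W : ℂ × ℂ} {t : ℝ} (h : HasDerivAt X W t) :
    HasDerivAt (fun t => (X t).1) W.1 t :=
  (ContinuousLinearMap.fst ℝ ℂ ℂ).hasFDerivAt.comp_hasDerivAt t h

theorem snd_deriv {X : ℝ → ℂ × ℂ} {W : ℂ × ℂ} {t : ℝ} (h : HasDerivAt X W t) :
    HasDerivAt (fun t => (X t).2) W.2 t :=
  (ContinuousLinearMap.snd ℝ ℂ ℂ).hasFDerivAt.comp_hasDerivAt t h

section
variable {X W : ℝ → ℂ × ℂ} (dX : ∀ t, HasDerivAt X (W t) t)
  (dW : ∀ t, HasDerivAt W (Gam (X t)) t) (nc : ∀ t, NC (X t))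
include dX dW nc

theorem pot_deriv (t : ℝ) : HasDerivAt (fun t => Pot (X t))
    (-(1 / 4) * (ip (X t).1.re 0 + ip ((X t).1 + (X t).2) ((W t).1 + (W t).2) / ‖(X t).1 + (X t).2‖ ^ 3
      + ip ((X t).1 - (X t).2) ((W t).1 - (W t).2) / ‖(X t).1 - (X t).2‖ ^ 3
      + ip (X t).2 (W t).2 / ‖(X t).2‖ ^ 3)) t := by
  have h1 := inv_deriv ((fst_deriv (dX t)).add (snd_deriv (dX t))) (nc t).1
  have h2 := inv_deriv ((fst_deriv (dX t)).sub (snd_deriv (dX t))) (nc t).2.1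
  have h3 := inv_deriv (snd_deriv (dX t)) (nc t).2.2
  refine (((h1.add h2).add h3).const_mul (1 / 4)).congr_deriv ?_
  simp only [Pi.add_apply, Pi.sub_apply]
  unfold ip
  simp only [Complex.zero_re, Complex.zero_im, mul_zero]
  ring

theorem energy_deriv (t : ℝ) : HasDerivAt (fun t => Kin (W t) - Pot (X t)) 0 t := by
  have h1 := sq_deriv (fst_deriv (dW t))
  have h2 := sq_deriv (snd_deriv (dW t))
  have h3 := pot_deriv dX dW nc t
  refine (((h1.const_mul (1 / 40)).add (h2.const_mul (1 / 8))).sub h3).congr_deriv ?_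
  have e1 : ip (W t).1 (Gam (X t)).1 = -5 * (ip (W t).1 ((X t).1 + (X t).2) / ‖(X t).1 + (X t).2‖ ^ 3
      + ip (W t).1 ((X t).1 - (X t).2) / ‖(X t).1 - (X t).2‖ ^ 3) := by
    rw [← ip_Fc, ← ip_Fc]; unfold Gam ip; simp; ring
  have e2 : ip (W t).2 (Gam (X t)).2 = -(ip (W t).2 ((X t).1 + (X t).2) / ‖(X t).1 + (X t).2‖ ^ 3
      - ip (W t).2 ((X t).1 - (X t).2) / ‖(X t).1 - (X t).2‖ ^ 3)
      - ip (W t).2 (X t).2 / ‖(X t).2‖ ^ 3 := by
    rw [← ip_Fc, ← ip_Fc, ← ip_Fc]; unfold Gam ip; simp; ring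
  rw [e1, e2]
  unfold ip
  simp only [Complex.add_re, Complex.add_im, Complex.sub_re, Complex.sub_im, Complex.zero_re,
    Complex.zero_im, mul_zero]
  ring

theorem mom_deriv (t : ℝ) : HasDerivAt (fun t => Mom (X t) (W t)) (2 * Kin (W t) - Pot (X t)) t := by
  have h1 := ip_deriv (fst_deriv (dX t)) (fst_deriv (dW t))
  have h2 := ip_deriv (snd_deriv (dX t)) (snd_deriv (dW t))
  refine ((h1.const_mul (1 / 20)).add (h2.const_mul (1 / 4))).congr_deriv ?_
  have e1 : 1 / 20 * ip (X t).1 (Gam (X t)).1 + 1 / 4 * ip (X t).2 (Gam (X t)).2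
      = - (1 / 4) * (ip ((X t).1 + (X t).2) (Fc ((X t).1 + (X t).2))
        + ip ((X t).1 - (X t).2) (Fc ((X t).1 - (X t).2)) + ip (X t).2 (Fc (X t).2)) := by
    unfold Gam ip; simp; ring
  rw [ip_Fc_self _ (nc t).1, ip_Fc_self _ (nc t).2.1, ip_Fc_self _ (nc t).2.2] at e1
  rw [ip_self, ip_self]
  unfold Kin Pot
  linarith

theorem kin_cont : Continuous fun t => Kin (W t) := by
  have : Continuous W := continuous_iff_continuousAt.mpr fun t => (dW t).continuousAt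
  unfold Kin
  fun_prop

theorem pot_cont : Continuous fun t => Pot (X t) :=
  continuous_iff_continuousAt.mpr fun t => (pot_deriv dX dW nc t).continuousAt

/-- the action over a period -/
theorem action_eq (T : ℝ) (pX : X T = X 0) (pW : W T = W 0) :
    ∫ t in (0:ℝ)..T, (Kin (W t) + Pot (X t)) = -3 * (Kin (W 0) - Pot (X 0)) * T := by
  have hE : ∀ t, Kin (W t) - Pot (X t) = Kin (W 0) - Pot (X 0) := by
    intro t
    exact is_const_of_deriv_eq_zero (fun t => (energy_deriv dX dW nc t).differentiableAt)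
      (fun t => (energy_deriv dX dW nc t).deriv) t 0
  have kc := kin_cont dX dW nc
  have pc := pot_cont dX dW nc
  have h1 : ∫ t in (0:ℝ)..T, (2 * Kin (W t) - Pot (X t)) = 0 := by
    have c : Continuous fun t => 2 * Kin (W t) - Pot (X t) := (continuous_const.mul kc).sub pc
    rw [intervalIntegral.integral_eq_sub_of_hasDerivAt (fun t _ => mom_deriv dX dW nc t)
      (c.intervalIntegrable _ _), pX, pW, sub_self]
  have e : ∀ t, Kin (W t) + Pot (X t) = -3 * (Kin (W 0) - Pot (X 0)) + 2 * (2 * Kin (W t) - Pot (X t)) := by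
    intro t; rw [← hE t]; ring
  rw [intervalIntegral.integral_congr (fun t _ => e t), intervalIntegral.integral_add,
    intervalIntegral.integral_const_mul, intervalIntegral.integral_const_mul, h1]
  · simp; ring
  · exact intervalIntegrable_const
  · exact (continuous_const.mul ((continuous_const.mul kc).sub pc)).intervalIntegrable _ _

end

theorem energy_le {x w : ℂ × ℂ} (h1 : x.1 = 0) (h2 : w.2 = 0) (h3 : ‖w.1‖ ^ 2 ≤ 7957 / 1000)
    (h4 : ‖x.2‖ ^ 2 ≤ 23036 / 10000) (h5 : x.2 ≠ 0) : Kin w - Pot x ≤ -(295 / 1000) := by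
  have hn : 0 < ‖x.2‖ := norm_pos_iff.mpr h5
  have h6 : ‖x.2‖ ≤ 15178 / 10000 := by
    by_contra hc
    push Not at hc
    nlinarith
  have h7 : 10000 / 15178 ≤ ‖x.2‖⁻¹ := by
    rw [show (10000 : ℝ) / 15178 = (15178 / 10000)⁻¹ by norm_num]
    exact inv_anti₀ hn h6
  unfold Kin Pot
  rw [h1, h2, zero_add, zero_sub, norm_neg, norm_zero]
  norm_num at h3 h7 ⊢
  linarith

end Pool.Agent.K6.H72.TB
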